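import Pool.Agent.Helper92.TN.GoalsH
import Pool.Agent.Helper12.SGB.All

/-!
# Project TN (MP_a41896_nt), IND, part H, packet DUPG
-/

set_option autoImplicit false

open MvPolynomial

namespace Pool.Agent.Helper30.TN.DUPG

open WeierstrassCurve
open Pool.Agent.Helper29.BL Pool.Agent.Helper92.Ru Pool.Agent.Helper42.SG
open Pool.Agent.Helper60.T3 (WL IP zd)
open Pool.Agent.Helper92.TN

section deg
variable {κ : Type} [Field κ] {σ : Type} (i : σ)

theorem dmul {a b : MvPolynomial σ κ} {m n : ℕ} (ha : degreeOf i a ≤ m) (hb : degreeOf i b ≤ n) :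
    degreeOf i (a * b) ≤ m + n := (degreeOf_mul_le i a b).trans (add_le_add ha hb)

theorem dadd {a b : MvPolynomial σ κ} {m : ℕ} (ha : degreeOf i a ≤ m) (hb : degreeOf i b ≤ m) :
    degreeOf i (a + b) ≤ m := (degreeOf_add_le i a b).trans (max_le ha hb)

theorem dsub {a b : MvPolynomial σ κ} {m : ℕ} (ha : degreeOf i a ≤ m) (hb : degreeOf i b ≤ m) :
    degreeOf i (a - b) ≤ m := (degreeOf_sub_le i a b).trans (max_le ha hb)

theorem dpow {a : MvPolynomial σ κ} {m : ℕ} (n : ℕ) (ha : degreeOf i a ≤ m) :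
    degreeOf i (a ^ n) ≤ n * m := (degreeOf_pow_le i a n).trans (Nat.mul_le_mul_left n ha)

theorem dnum (n : ℕ) : degreeOf i ((n : MvPolynomial σ κ)) ≤ 0 := by
  have h : (n : MvPolynomial σ κ) = C (n : κ) := (map_natCast C n).symm
  rw [h, degreeOf_C]

/-- the coefficients are constants -/
structure Cst (W : WeierstrassCurve (MvPolynomial σ κ)) : Prop where
  b2 : degreeOf i W.b₂ ≤ 0
  b4 : degreeOf i W.b₄ ≤ 0
  b6 : degreeOf i W.b₆ ≤ 0
  b8 : degreeOf i W.b₈ ≤ 0

theorem dPh (W : WeierstrassCurve (MvPolynomial σ κ)) (hW : Cst i W) (x : MvPolynomial σ κ)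
    (hx : degreeOf i x ≤ 1) (e : ℕ) :
    degreeOf i (Ph W e x).1 ≤ 4 ^ e ∧ degreeOf i (Ph W e x).2 ≤ 4 ^ e := by
  induction e with
  | zero =>
    refine ⟨hx, ?_⟩
    show degreeOf i (1 : MvPolynomial σ κ) ≤ 1
    rw [degreeOf_one]
    exact zero_le_one
  | succ e ih =>
    obtain ⟨h1, h2⟩ := ih
    set t := (Ph W e x).1
    set z := (Ph W e x).2
    have n2 : degreeOf i (2 : MvPolynomial σ κ) ≤ 0 := by exact_mod_cast dnum (κ := κ) i 2
    have n4 : degreeOf i (4 : MvPolynomial σ κ) ≤ 0 := by exact_mod_cast dnum (κ := κ) i 4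
    have e4 : 4 ^ (e + 1) = 4 * 4 ^ e := by ring
    constructor
    · show degreeOf i (Ah W t z) ≤ _
      unfold Ah
      refine dsub i (dsub i (dsub i ?_ ?_) ?_) ?_
      · exact (dpow i 4 h1).trans (by omega)
      · exact (dmul i (dmul i hW.b4 (dpow i 2 h1)) (dpow i 2 h2)).trans (by omega)
      · exact (dmul i (dmul i (dmul i n2 hW.b6) h1) (dpow i 3 h2)).trans (by omega)
      · exact (dmul i hW.b8 (dpow i 4 h2)).trans (by omega)
    · show degreeOf i (Bh W t z) ≤ _
      unfold Bh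
      refine dadd i (dadd i (dadd i ?_ ?_) ?_) ?_
      · exact (dmul i (dmul i n4 (dpow i 3 h1)) h2).trans (by omega)
      · exact (dmul i (dmul i hW.b2 (dpow i 2 h1)) (dpow i 2 h2)).trans (by omega)
      · exact (dmul i (dmul i (dmul i n2 hW.b4) h1) (dpow i 3 h2)).trans (by omega)
      · exact (dmul i hW.b6 (dpow i 4 h2)).trans (by omega)

end deg

theorem t (hDEGB : DEGB) (hDGF : DGF) : Pool.Agent.Helper92.TN.DUPG := by
  intro K Ω _ _ _ _ _ _ W _ k t ht hal P e
  have hnn := (hDGF k Ω t (xc P) ht).1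
  have hz : dg k t (0 : Ω) = 0 := (hDGF k Ω t 0 ht).2.1 isAlgebraic_zero
  by_cases h0 : (2 ^ e) • P = 0
  · rw [h0, xc_zero, hz]
    positivity
  have hP : P ≠ 0 := by
    rintro rfl
    exact h0 (smul_zero _)
  obtain ⟨-, e2, e3, -⟩ := Pool.Agent.Helper12.SGB.th_EDUP Ω (WL Ω W) P e hP
  have hΨ : (Ph (WL Ω W) e (xc P)).2 ≠ 0 := fun h => h0 (e2.1 h)
  have hΦ := e3 h0
  set z := xc ((2 ^ e) • P) with hzdef
  set WA : WeierstrassCurve (MvPolynomial (Option Unit) k) :=
    W.map (algebraMap K (MvPolynomial (Option Unit) k)) with hWA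
  set Xs : MvPolynomial (Option Unit) k := X (some ()) with hXs
  have hval : ∀ c : Ω, ∀ g : MvPolynomial (Option Unit) k →ₐ[k] Ω,
      g = aeval (fun o : Option Unit => o.elim c (fun _ => xc P)) →
      Ph (WL Ω W) e (xc P) = (g (Ph WA e Xs).1, g (Ph WA e Xs).2) := by
    intro c g hg
    have h1 := Pool.Agent.Helper24.SGB.Ph_map (g : MvPolynomial (Option Unit) k →+* Ω) WA e Xs
    have h2 : WA.map (g : MvPolynomial (Option Unit) k →+* Ω) = WL Ω W := by
      rw [hWA, WeierstrassCurve.map_map]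
      congr 1
      ext a
      show g (algebraMap K (MvPolynomial (Option Unit) k) a) = algebraMap K Ω a
      rw [IsScalarTower.algebraMap_apply K k (MvPolynomial (Option Unit) k), AlgHom.commutes,
        ← IsScalarTower.algebraMap_apply]
    have h3 : (g : MvPolynomial (Option Unit) k →+* Ω) Xs = xc P := by
      show g Xs = xc P
      rw [hg, hXs, aeval_X]
      rfl
    rw [h2, h3] at h1
    exact h1
  set R : MvPolynomial (Option Unit) k := (Ph WA e Xs).1 - X none * (Ph WA e Xs).2 with hR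
  have hev : ∀ c : Ω, aeval (fun o : Option Unit => o.elim c (fun _ => xc P)) R =
      (z - c) * (Ph (WL Ω W) e (xc P)).2 := by
    intro c
    have h := hval c _ rfl
    have h1 : (Ph (WL Ω W) e (xc P)).1 =
      aeval (fun o : Option Unit => o.elim c (fun _ => xc P)) (Ph WA e Xs).1 := by rw [h]
    have h2 : (Ph (WL Ω W) e (xc P)).2 =
      aeval (fun o : Option Unit => o.elim c (fun _ => xc P)) (Ph WA e Xs).2 := by rw [h]
    rw [hR, map_sub, map_mul, aeval_X, ← h1, ← h2, hΦ]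
    show z * (Ph (WL Ω W) e (xc P)).2 - c * (Ph (WL Ω W) e (xc P)).2 = _
    ring
  have hC : ∀ a : K, degreeOf (some ()) (algebraMap K (MvPolynomial (Option Unit) k) a) ≤ 0 := by
    intro a
    rw [IsScalarTower.algebraMap_apply K k (MvPolynomial (Option Unit) k), algebraMap_eq,
      degreeOf_C]
  have hW : Cst (some ()) WA :=
    ⟨by rw [hWA, WeierstrassCurve.map_b₂]; exact hC _, by rw [hWA, WeierstrassCurve.map_b₄]; exact hC _,
      by rw [hWA, WeierstrassCurve.map_b₆]; exact hC _, by rw [hWA, WeierstrassCurve.map_b₈]; exact hC _⟩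
  have hXd : degreeOf (some ()) Xs ≤ 1 := by
    rw [hXs, degreeOf_X_self]
  obtain ⟨d1, d2⟩ := dPh (some ()) WA hW Xs hXd e
  have hXn : degreeOf (some ()) (X none : MvPolynomial (Option Unit) k) ≤ 0 := by
    rw [degreeOf_X_of_ne (by simp)]
  have hdR : ∀ i : Unit, degreeOf (some i) R ≤ 4 ^ e := by
    intro i
    rw [hR]
    exact dsub _ d1 ((dmul _ hXn d2).trans (by omega))
  have key := hDEGB k Ω t ht hal Unit (fun _ => xc P) z (fun _ => 4 ^ e) R hdR
    (by rw [hev, sub_self, zero_mul]) ⟨z + 1, by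
      rw [hev]
      have : z - (z + 1) = -1 := by ring
      rw [this]
      exact mul_ne_zero (neg_ne_zero.2 one_ne_zero) hΨ⟩
  simpa using key

end Pool.Agent.Helper30.TN.DUPG
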